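import Pool.Agent.H45.Lyap

open MeasureTheory ProbabilityTheory Filter Topology Finset Pool.Agent.H45.Chain

namespace Pool.Agent.Results.MP_adc20b_pr.Counter

variable {n d : ℕ}

/-- a reaction `y → y'` -/
abbrev Rx (d : ℕ) := (Fin d → ℕ) × (Fin d → ℕ)

/-- mass-action rate of the reaction `r` with rate constant `c` in state `x` -/
def lam (c : ℝ) (r : Rx d) (x : Fin d → ℕ) : ℝ := c * ∏ m, ((x m).descFactorial (r.1 m) : ℝ)

/-- linear part of the drift: entry `(m, l)` -/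
def M (R : Finset (Rx d)) (c : Rx d → ℝ) (m l : Fin d) : ℝ :=
  ∑ r ∈ R with r.1 = Pi.single l 1, c r * (r.2 m - r.1 m)

variable (R : Fin n → Finset (Rx d)) (c : Fin n → Rx d → ℝ) (q : Fin n → Fin n → ℝ) (κ : ℝ)

/-- total jump rate of the mixed process -/
def rate (z : (Fin d → ℕ) × Fin n) : ℝ :=
  ∑ r ∈ R z.2, lam (c z.2 r) r z.1 + ∑ j with j ≠ z.2, κ * q z.2 j

/-- jump chain of the mixed process -/
noncomputable def jump : Kernel ((Fin d → ℕ) × Fin n) ((Fin d → ℕ) × Fin n) :=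
  Kernel.ofFunOfCountable fun z =>
    ∑ r ∈ R z.2, ENNReal.ofReal (lam (c z.2 r) r z.1 / rate R c q κ z) •
      Measure.dirac (z.1 - r.1 + r.2, z.2) +
    ∑ j with j ≠ z.2, ENNReal.ofReal (κ * q z.2 j / rate R c q κ z) • Measure.dirac (z.1, j)

/-- time of the `k`-th jump, from the jump chain `ω.1` and standard exponentials `ω.2` -/
noncomputable def time (ω : (ℕ → (Fin d → ℕ) × Fin n) × (ℕ → ℝ)) (k : ℕ) : ℝ :=
  ∑ j ∈ range k, ω.2 j / rate R c q κ (ω.1 j)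

/-- `‖X(t)‖₁ → ∞`, where `X(t)` is the `k`-th state of the jump chain between the `k`-th and the
`(k+1)`-th jump time (explosion in finite time is included) -/
def escape : Set ((ℕ → (Fin d → ℕ) × Fin n) × (ℕ → ℝ)) :=
  {ω | ∀ B : ℝ, ∃ t₀, ∀ t ≥ t₀, ∀ k, time R c q κ ω k ≤ t → t < time R c q κ ω (k + 1) →
    B ≤ ∑ m, ((ω.1 k).1 m : ℝ)}

def R₀ : Fin 2 → Finset (Rx 3) :=
  ![{(![0, 1, 0], ![1, 0, 0]), (![1, 0, 0], ![2, 0, 0]), (![0, 0, 1], 0)},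
    {(![0, 1, 0], ![0, 0, 1]), (![0, 0, 1], ![0, 0, 2]), (![1, 0, 0], 0)}]

def c₀ (_ : Fin 2) (r : Rx 3) : ℝ := if r.2 = 0 then 2 else 1

lemma sum0 {E : Type} [AddCommMonoid E] (g : Rx 3 → E) : ∑ r ∈ R₀ 0, g r =
    g (![0, 1, 0], ![1, 0, 0]) + g (![1, 0, 0], ![2, 0, 0]) + g (![0, 0, 1], 0) := by
  rw [add_assoc]; exact (sum_insert (by decide)).trans (congrArg _ (sum_pair (by decide)))

lemma sum1 {E : Type} [AddCommMonoid E] (g : Rx 3 → E) : ∑ r ∈ R₀ 1, g r =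
    g (![0, 1, 0], ![0, 0, 1]) + g (![0, 0, 1], ![0, 0, 2]) + g (![1, 0, 0], 0) := by
  rw [add_assoc]; exact (sum_insert (by decide)).trans (congrArg _ (sum_pair (by decide)))

lemma f0 : univ.filter (· ≠ (0 : Fin 2)) = {1} := by decide
lemma f1 : univ.filter (· ≠ (1 : Fin 2)) = {0} := by decide

variable {κ}

lemma rate0 (x : Fin 3 → ℕ) : rate R₀ c₀ 1 κ (x, 0) = x 1 + x 0 + 2 * x 2 + κ := by
  simp +decide [rate, sum0, f0, lam, c₀, Fin.prod_univ_three]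

lemma rate1 (x : Fin 3 → ℕ) : rate R₀ c₀ 1 κ (x, 1) = x 1 + x 2 + 2 * x 0 + κ := by
  simp +decide [rate, sum1, f1, lam, c₀, Fin.prod_univ_three]

lemma int_jump (hκ : 0 < κ) (φ : (Fin 3 → ℕ) × Fin 2 → ℝ) (h : ∀ z, 0 ≤ φ z) (x : Fin 3 → ℕ) :
    ∫⁻ w, ENNReal.ofReal (φ w) ∂jump R₀ c₀ 1 κ (x, 0) = ENNReal.ofReal
      ((x 1 * φ (x - ![0, 1, 0] + ![1, 0, 0], 0) + x 0 * φ (x - ![1, 0, 0] + ![2, 0, 0], 0) +
        2 * x 2 * φ (x - ![0, 0, 1], 0) + κ * φ (x, 1)) / (x 1 + x 0 + 2 * x 2 + κ)) ∧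
    ∫⁻ w, ENNReal.ofReal (φ w) ∂jump R₀ c₀ 1 κ (x, 1) = ENNReal.ofReal
      ((x 1 * φ (x - ![0, 1, 0] + ![0, 0, 1], 1) + x 2 * φ (x - ![0, 0, 1] + ![0, 0, 2], 1) +
        2 * x 0 * φ (x - ![1, 0, 0], 1) + κ * φ (x, 0)) / (x 1 + x 2 + 2 * x 0 + κ)) := by
  constructor <;>
  · simp only [jump, Kernel.ofFunOfCountable, Kernel.coe_mk, sum0, sum1, f0, f1, rate0, rate1,
      sum_singleton, lintegral_add_measure, lintegral_smul_measure, lintegral_dirac, smul_eq_mul]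
    simp +decide only [lam, c₀, Fin.prod_univ_three, Matrix.cons_val, Nat.descFactorial_zero,
      Nat.descFactorial_one, if_true, if_false, Nat.cast_one, mul_one, one_mul, add_zero, Pi.one_apply]
    repeat rw [← ENNReal.ofReal_mul (by positivity)]
    have m : ∀ a z, 0 ≤ a → 0 ≤ a * φ z := fun a z ha => mul_nonneg ha (h z)
    rw [← ENNReal.ofReal_add (m _ _ (by positivity)) (m _ _ (by positivity)),
      ← ENNReal.ofReal_add (add_nonneg (m _ _ (by positivity)) (m _ _ (by positivity)))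
        (m _ _ (by positivity)), ← ENNReal.ofReal_add (add_nonneg (add_nonneg (m _ _ (by positivity))
          (m _ _ (by positivity))) (m _ _ (by positivity))) (m _ _ (by positivity))]
    congr 1; ring

lemma markov (hκ : 0 < κ) : IsMarkovKernel (jump R₀ c₀ 1 κ) := ⟨fun ⟨x, i⟩ => ⟨by
  have := int_jump hκ (fun _ => 1) (fun _ => zero_le_one) x
  simp only [ENNReal.ofReal_one, lintegral_one, mul_one] at this
  rw [div_self (by positivity), div_self (by positivity), ENNReal.ofReal_one] at this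
  fin_cases i
  exacts [this.1, this.2]⟩⟩

lemma ineq {θ : ℝ} (h0 : 0 < θ) (h1 : θ ≤ 1) (a b : ℕ) :
    ((a + 1 : ℕ) : ℝ) ^ θ ≤ a ^ θ + 1 ∧ a * ((a - 1 + 2 : ℕ) : ℝ) ^ θ ≤ (a + θ) * a ^ θ ∧
      b * ((b - 1 : ℕ) : ℝ) ^ θ ≤ (b - θ) * b ^ θ := by
  have key : ∀ x s : ℝ, 0 < x → -1 ≤ s / x → x * (x + s) ^ θ ≤ (x + θ * s) * x ^ θ := fun x s hx hs => by
    have := rpow_one_add_le_one_add_mul_self hs h0.le h1
    rw [show x + s = x * (1 + s / x) by field_simp, Real.mul_rpow hx.le (by linarith),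
      show (x + θ * s) * x ^ θ = x * (x ^ θ * (1 + θ * (s / x))) by field_simp]
    gcongr
  refine ⟨by simpa using Real.rpow_add_le_add_rpow (Nat.cast_nonneg a) zero_le_one h0.le h1, ?_, ?_⟩
  · rcases a with _ | a
    · simp [Real.zero_rpow h0.ne']
    · have := key (a + 1) 1 (by positivity) (le_trans (by norm_num) (by positivity : (0 : ℝ) ≤ _))
      simpa [add_assoc, one_add_one_eq_two] using this
  · rcases b with _ | b
    · simp [Real.zero_rpow h0.ne']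
    · have := key (b + 1) (-1) (by positivity) (by
        rw [le_div_iff₀ (by positivity)]; linarith [Nat.cast_nonneg (α := ℝ) b])
      simpa [sub_eq_add_neg] using this

theorem result : ∃ (n d : ℕ) (R : Fin n → Finset (Rx d)) (c : Fin n → Rx d → ℝ)
    (q : Fin n → Fin n → ℝ) (v : Fin n → Fin d → ℝ), 1 ≤ n ∧ 1 ≤ d ∧
    (∀ i, ∀ r ∈ R i, (r.1 = 0 ∨ ∃ l, r.1 = Pi.single l 1) ∧ 0 < c i r) ∧
    (∀ i j, i ≠ j → 0 ≤ q i j) ∧ (∀ i j, Relation.ReflTransGen (fun a b => a ≠ b ∧ 0 < q a b) i j) ∧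
    (∀ i m, 0 ≤ v i m) ∧ (∀ i m, v i m ≠ 0 → 0 < ∑ l, v i l * M (R i) (c i) l m) ∧
    (∃ m, ∀ j, v j m ≠ 0) ∧ ∀ κ ∈ Set.Ioc (0 : ℝ) 2, ∃ _ : IsMarkovKernel (jump R c q κ), ∀ z,
      ((pathLaw (jump R c q κ) z).prod (Measure.infinitePi fun _ : ℕ => expMeasure 1))
        (escape R c q κ) = 0 := by
  refine ⟨2, 3, R₀, c₀, 1, ![![2, 1, 0], ![0, 1, 2]], by omega, by omega,
    fun i r hr => ⟨by revert i r; decide, by unfold c₀; positivity⟩, fun _ _ _ => zero_le_one,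
    fun i j => ?_, fun i m => ?_, fun i m => ?_, ⟨1, fun j => by fin_cases j <;> simp⟩,
    fun κ hκ => ⟨markov hκ.1, fun z => ?_⟩⟩
  · by_cases h : i = j
    exacts [h ▸ .refl, .single ⟨h, zero_lt_one⟩]
  · fin_cases i <;> fin_cases m <;> simp
  · fin_cases i <;> fin_cases m <;>
      simp +decide [M, sum_filter, sum0, sum1, c₀, Fin.sum_univ_three]
  have := markov hκ.1
  have k0 := hκ.1
  obtain ⟨θ, rfl⟩ : ∃ θ, κ = 2 * θ := ⟨κ / 2, by ring⟩
  have h0 : 0 < θ := by linarith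
  have h1 : θ ≤ 1 := by linarith [hκ.2]
  let f : (Fin 3 → ℕ) × Fin 2 → ℝ := fun z =>
    (if z.2 = 0 then 1 else 1 / 2) * (z.1 0 : ℝ) ^ θ + (if z.2 = 0 then 1 / 2 else 1) * (z.1 2 : ℝ) ^ θ +
      z.1 1
  have hf : ∀ z, 0 ≤ f z := fun z => by positivity
  refine no_escape _ z (fun z => ∑ m, (z.1 m : ℝ)) _ (fun ⟨x, i⟩ => ?_)
    (fun B => ⟨2 * B + 2 * θ, fun ⟨x, i⟩ h => ?_⟩) ((lyap _ f (fun ⟨x, i⟩ => ?_) z).mono ?_)
  · fin_cases i <;> simp only [Fin.zero_eta, Fin.mk_one, rate0, rate1] <;> positivity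
  · simp only [Fin.sum_univ_three] at h
    have := fun m => Nat.cast_nonneg (α := ℝ) (x m)
    fin_cases i <;> simp only [Fin.zero_eta, Fin.mk_one, rate0, rate1] <;>
      linarith [this 0, this 1, this 2]
  · have e : (x 1 : ℝ) * ((x 1 - 1 : ℕ) : ℝ) = x 1 * (x 1 - 1) := by cases x 1 <;> simp
    have p := Nat.cast_nonneg (α := ℝ) (x 1)
    obtain ⟨a1, a2, a3⟩ := ineq h0 h1 (x 0) (x 2)
    obtain ⟨b1, b2, b3⟩ := ineq h0 h1 (x 2) (x 0)
    fin_cases i <;> simp only [Fin.zero_eta, Fin.mk_one, int_jump hκ.1 f hf x] <;>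
      refine ENNReal.ofReal_le_ofReal ?_ <;> rw [div_le_iff₀ (by positivity)] <;>
      simp +decide only [f, Pi.add_apply, Pi.sub_apply, Matrix.cons_val, if_true, if_false,
        tsub_zero, add_zero]
    · nlinarith [mul_le_mul_of_nonneg_left a1 p]
    · nlinarith [mul_le_mul_of_nonneg_left b1 p]
  · rintro y ⟨B, hB⟩
    refine ⟨(2 * B) ^ θ⁻¹ + B + (2 * B) ^ θ⁻¹, hB.mono fun k hk => ?_⟩
    have p0 := Real.rpow_nonneg (Nat.cast_nonneg (α := ℝ) ((y k).1 0)) θ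
    have p2 := Real.rpow_nonneg (Nat.cast_nonneg (α := ℝ) ((y k).1 2)) θ
    have p1 := Nat.cast_nonneg (α := ℝ) ((y k).1 1)
    have hB0 := (hf _).trans hk
    have : ((y k).1 0 : ℝ) ^ θ ≤ 2 * B ∧ ((y k).1 2 : ℝ) ^ θ ≤ 2 * B ∧ ((y k).1 1 : ℝ) ≤ B := by
      simp only [f] at hk
      split_ifs at hk <;> refine ⟨?_, ?_, ?_⟩ <;> linarith
    rw [Fin.sum_univ_three]
    gcongr
    exacts [(Real.le_rpow_inv_iff_of_pos (by positivity) (by positivity) h0).2 this.1, this.2.2,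
      (Real.le_rpow_inv_iff_of_pos (by positivity) (by positivity) h0).2 this.2.1]

end Pool.Agent.Results.MP_adc20b_pr.Counter
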